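import Mathlib

/-!
# Alternate (Sinkhorn) scaling: at most two scalings are ever needed exactly

For a positive square matrix, the alternate scaling sequence either never reaches a doubly
stochastic matrix, or reaches it after at most two scalings. In particular, for no `L ≥ 3` and
no `n` is there a positive `n × n` matrix that requires exactly `L` scalings.
-/

namespace Pool.Agent.Results.MP_407c22_co.AtMostTwoScalings

open Finset

/-- All entries are positive. -/
def IsPositive {n : ℕ} (A : Matrix (Fin n) (Fin n) ℝ) : Prop := ∀ i j, 0 < A i j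

/-- Every row sums to `1` (entries are not required to be nonnegative here). -/
def RowStochastic {n : ℕ} (A : Matrix (Fin n) (Fin n) ℝ) : Prop := ∀ i, ∑ j, A i j = 1

/-- Every column sums to `1`. -/
def ColStochastic {n : ℕ} (A : Matrix (Fin n) (Fin n) ℝ) : Prop := ∀ j, ∑ i, A i j = 1

/-- Doubly stochastic: all row sums and all column sums are `1`. -/
def DoublyStochastic {n : ℕ} (A : Matrix (Fin n) (Fin n) ℝ) : Prop :=
  RowStochastic A ∧ ColStochastic A

/-- Row scaling `R(A)`: divide every row by its sum. -/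
noncomputable def rowScale {n : ℕ} (A : Matrix (Fin n) (Fin n) ℝ) : Matrix (Fin n) (Fin n) ℝ :=
  fun i j => A i j / ∑ k, A i k

/-- Column scaling `C(A)`: divide every column by its sum. -/
noncomputable def colScale {n : ℕ} (A : Matrix (Fin n) (Fin n) ℝ) : Matrix (Fin n) (Fin n) ℝ :=
  fun i j => A i j / ∑ k, A k j

/-- The alternate scaling sequence `A₀ = A`, `A₁ = R(A₀)`, `A₂ = C(A₁)`, `A₃ = R(A₂)`, ... -/
noncomputable def altSeq {n : ℕ} (A : Matrix (Fin n) (Fin n) ℝ) :
    ℕ → Matrix (Fin n) (Fin n) ℝ
  | 0 => A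
  | k + 1 => if Even k then rowScale (altSeq A k) else colScale (altSeq A k)

/-- `A` requires exactly `L` scalings: some term of the alternate scaling sequence is doubly
stochastic and, `N` being the least index of such a term, `L` is the number of indices
`1 ≤ k ≤ N` with `A_k ≠ A_{k-1}`. -/
def RequiresExactly {n : ℕ} (A : Matrix (Fin n) (Fin n) ℝ) (L : ℕ) : Prop :=
  ∃ N : ℕ, IsLeast {k | DoublyStochastic (altSeq A k)} N ∧
    L = Set.ncard {k : ℕ | 1 ≤ k ∧ k ≤ N ∧ altSeq A k ≠ altSeq A (k - 1)}

variable {n : ℕ}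

theorem rowSum_pos {A : Matrix (Fin n) (Fin n) ℝ} (hA : IsPositive A) (i : Fin n) :
    0 < ∑ k, A i k :=
  Finset.sum_pos (fun k _ => hA i k) ⟨i, Finset.mem_univ i⟩

theorem colSum_pos {A : Matrix (Fin n) (Fin n) ℝ} (hA : IsPositive A) (j : Fin n) :
    0 < ∑ k, A k j :=
  Finset.sum_pos (fun k _ => hA k j) ⟨j, Finset.mem_univ j⟩

theorem isPositive_rowScale {A : Matrix (Fin n) (Fin n) ℝ} (hA : IsPositive A) :
    IsPositive (rowScale A) := fun i j => div_pos (hA i j) (rowSum_pos hA i)

theorem isPositive_colScale {A : Matrix (Fin n) (Fin n) ℝ} (hA : IsPositive A) :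
    IsPositive (colScale A) := fun i j => div_pos (hA i j) (colSum_pos hA j)

theorem rowStochastic_rowScale {A : Matrix (Fin n) (Fin n) ℝ} (hA : IsPositive A) :
    RowStochastic (rowScale A) := by
  intro i
  show ∑ j, A i j / ∑ k, A i k = 1
  rw [← Finset.sum_div]
  exact div_self (rowSum_pos hA i).ne'

theorem colStochastic_colScale {A : Matrix (Fin n) (Fin n) ℝ} (hA : IsPositive A) :
    ColStochastic (colScale A) := by
  intro j
  show ∑ i, A i j / ∑ k, A k j = 1
  rw [← Finset.sum_div]
  exact div_self (colSum_pos hA j).ne'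

/-- The heart of the matter: if `B` is positive and column stochastic and `C(R(B))` is row
stochastic, then `R(B)` is already column stochastic. -/
theorem core {B : Matrix (Fin n) (Fin n) ℝ} (hB : IsPositive B) (hcol : ColStochastic B)
    (hrow : RowStochastic (colScale (rowScale B))) : ColStochastic (rowScale B) := by
  set c : Fin n → ℝ := fun j => ∑ k, rowScale B k j with hc
  have hcpos : ∀ j, 0 < c j := fun j => colSum_pos (isPositive_rowScale hB) j
  have hrpos : ∀ i, 0 < ∑ k, B i k := fun i => rowSum_pos hB i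
  -- the sum of the `c j` is `n`
  have hsumc : ∑ j, c j = n := by
    rw [hc]
    simp only
    rw [Finset.sum_comm]
    rw [Finset.sum_congr rfl (fun i _ => rowStochastic_rowScale hB i)]
    simp
  -- `∑ j, B i j / c j = r i`
  have h1 : ∀ i, ∑ j, B i j / c j = ∑ k, B i k := by
    intro i
    have h2 : ∑ j, B i j / (∑ k, B i k) / c j = 1 := hrow i
    have h3 : ∑ j, B i j / (∑ k, B i k) / c j = (∑ j, B i j / c j) / ∑ k, B i k := by
      rw [Finset.sum_div]
      exact Finset.sum_congr rfl fun j _ => div_right_comm _ _ _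
    rw [h3, div_eq_one_iff_eq (hrpos i).ne'] at h2
    exact h2
  -- the sum of the `1 / c j` is `n`
  have hsumc' : ∑ j, 1 / c j = n := by
    have h2 : ∑ i, ∑ j, B i j / c j = ∑ i, ∑ k, B i k := Finset.sum_congr rfl fun i _ => h1 i
    rw [Finset.sum_comm] at h2
    have h3 : ∀ j, ∑ i, B i j / c j = 1 / c j := by
      intro j
      rw [← Finset.sum_div, hcol j]
    rw [Finset.sum_congr rfl (fun j _ => h3 j)] at h2
    have h4 : ∑ i, ∑ k, B i k = ∑ k, ∑ i, B i k := Finset.sum_comm
    rw [h2, h4, Finset.sum_congr rfl (fun j _ => hcol j)]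
    simp
  -- hence all `c j` are `1`
  have hzero : ∑ j, (c j + 1 / c j - 2) = 0 := by
    rw [Finset.sum_sub_distrib, Finset.sum_add_distrib, hsumc, hsumc']
    simp
    ring
  have hnonneg : ∀ j ∈ (Finset.univ : Finset (Fin n)), 0 ≤ c j + 1 / c j - 2 := by
    intro j _
    have h2 : c j + 1 / c j - 2 = (c j - 1) ^ 2 / c j := by
      have := (hcpos j).ne'
      field_simp
      ring
    rw [h2]
    exact div_nonneg (sq_nonneg _) (hcpos j).le
  have hall := (Finset.sum_eq_zero_iff_of_nonneg hnonneg).1 hzero
  intro j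
  have h2 := hall j (Finset.mem_univ j)
  have h3 : c j + 1 / c j - 2 = (c j - 1) ^ 2 / c j := by
    have := (hcpos j).ne'
    field_simp
    ring
  rw [h3, div_eq_zero_iff] at h2
  rcases h2 with h2 | h2
  · have h4 : c j - 1 = 0 := by
      exact pow_eq_zero_iff (two_ne_zero) |>.1 h2
    show c j = 1
    linarith
  · exact absurd h2 (hcpos j).ne'

theorem rowScale_transpose (A : Matrix (Fin n) (Fin n) ℝ) :
    rowScale A.transpose = (colScale A).transpose := rfl

theorem colScale_transpose (A : Matrix (Fin n) (Fin n) ℝ) :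
    colScale A.transpose = (rowScale A).transpose := rfl

/-- The transposed version of `core`. -/
theorem core' {B : Matrix (Fin n) (Fin n) ℝ} (hB : IsPositive B) (hrow : RowStochastic B)
    (hcol : ColStochastic (rowScale (colScale B))) : RowStochastic (colScale B) := by
  have h := core (B := B.transpose) (fun i j => hB j i) (fun j => hrow j)
    (by
      rw [rowScale_transpose, colScale_transpose]
      exact fun i => hcol i)
  rw [rowScale_transpose] at h
  exact fun i => h i

theorem isPositive_altSeq {A : Matrix (Fin n) (Fin n) ℝ} (hA : IsPositive A) (k : ℕ) :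
    IsPositive (altSeq A k) := by
  induction k with
  | zero => exact hA
  | succ k ih =>
    rw [altSeq]
    split_ifs
    · exact isPositive_rowScale ih
    · exact isPositive_colScale ih

/-- The first doubly stochastic term has index at most `2`. -/
theorem first_le_two {A : Matrix (Fin n) (Fin n) ℝ} (hA : IsPositive A) {N : ℕ}
    (hN : IsLeast {k | DoublyStochastic (altSeq A k)} N) : N ≤ 2 := by
  by_contra hlt
  obtain ⟨k, rfl⟩ : ∃ k, N = k + 3 := ⟨N - 3, by omega⟩
  have hpos := isPositive_altSeq hA
  have hDS : DoublyStochastic (altSeq A (k + 3)) := hN.1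
  have hnot : ¬ DoublyStochastic (altSeq A (k + 2)) := by
    intro h
    have := hN.2 h
    omega
  apply hnot
  rcases Nat.even_or_odd k with hk | hk
  · -- `A_{k+1} = R(A_k)`, `A_{k+2} = C(A_{k+1})`, `A_{k+3} = R(A_{k+2})`
    have e1 : altSeq A (k + 1) = rowScale (altSeq A k) := by rw [altSeq, if_pos hk]
    have e2 : altSeq A (k + 2) = colScale (altSeq A (k + 1)) := by
      rw [altSeq, if_neg (by simpa [Nat.even_add_one] using hk)]
    have e3 : altSeq A (k + 3) = rowScale (altSeq A (k + 2)) := by
      rw [altSeq, if_pos (by simpa [Nat.even_add_one] using hk)]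
    have hrow : RowStochastic (altSeq A (k + 1)) := by
      rw [e1]; exact rowStochastic_rowScale (hpos k)
    have hcol : ColStochastic (altSeq A (k + 2)) := by
      rw [e2]; exact colStochastic_colScale (hpos (k + 1))
    refine ⟨?_, hcol⟩
    rw [e2]
    refine core' (hpos (k + 1)) hrow ?_
    rw [← e2, ← e3]
    exact hDS.2
  · have hk' : ¬ Even k := Nat.not_even_iff_odd.2 hk
    have e1 : altSeq A (k + 1) = colScale (altSeq A k) := by rw [altSeq, if_neg hk']
    have e2 : altSeq A (k + 2) = rowScale (altSeq A (k + 1)) := by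
      rw [altSeq, if_pos (by simpa [Nat.even_add_one] using hk')]
    have e3 : altSeq A (k + 3) = colScale (altSeq A (k + 2)) := by
      rw [altSeq, if_neg (by simpa [Nat.even_add_one] using hk')]
    have hcol : ColStochastic (altSeq A (k + 1)) := by
      rw [e1]; exact colStochastic_colScale (hpos k)
    have hrow : RowStochastic (altSeq A (k + 2)) := by
      rw [e2]; exact rowStochastic_rowScale (hpos (k + 1))
    refine ⟨hrow, ?_⟩
    rw [e2]
    refine core (hpos (k + 1)) hcol ?_
    rw [← e2, ← e3]
    exact hDS.1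

/-- **Answer to the question.** For every `n` and every `L ≥ 3`, no positive `n × n` matrix
requires exactly `L` alternating scalings. -/
theorem result (n L : ℕ) (hL : 3 ≤ L) :
    ¬ ∃ A : Matrix (Fin n) (Fin n) ℝ, IsPositive A ∧ RequiresExactly A L := by
  rintro ⟨A, hA, N, hN, hLN⟩
  have h2 := first_le_two hA hN
  have hsub : {k : ℕ | 1 ≤ k ∧ k ≤ N ∧ altSeq A k ≠ altSeq A (k - 1)} ⊆
      ((Finset.Icc 1 2 : Finset ℕ) : Set ℕ) := by
    rintro k ⟨h1, h3, -⟩
    exact Finset.mem_coe.2 (Finset.mem_Icc.2 ⟨h1, h3.trans h2⟩)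
  have hle := Set.ncard_le_ncard hsub (Finset.finite_toSet _)
  rw [Set.ncard_coe_finset, ← hLN, Nat.card_Icc] at hle
  omega

end Pool.Agent.Results.MP_407c22_co.AtMostTwoScalings
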