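import Pool.Agent.H95MS.Main

set_option autoImplicit false

/-!
# A finest matroid subdivision of the hypersimplex with a decomposable maximal cell

The question whether all maximal cells of all finest matroid subdivisions of hypersimplices are
polytopes of indecomposable matroids has a negative answer, already for three-subsets of a
nine-element set.
-/

namespace Pool.Agent.Results.MP_6a4d09_co.DecomposableCell

open Pool.Agent.H95MS

/-- There is a finest matroid subdivision `C` of the hypersimplex of the three-subsets of a
nine-element set with a maximal cell which is the polytope of a matroid that is not
indecomposable. -/
theorem result : ∃ C : Set (Set (Fin 9 → ℝ)), IsFinest (hypersimplex 3 9) C ∧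
    ∃ N : Matroid (Fin 9), N.E = Set.univ ∧ IsCell C (polytope N) ∧ ¬ Indecomposable N :=
  main

end Pool.Agent.Results.MP_6a4d09_co.DecomposableCell
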