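import Mathlib

/-!
# Graphs of chromatic number `a⁺` without a subdivision of `K_{a⁺}`

For every infinite cardinal `a` we construct a graph of chromatic number exactly `a⁺` that contains
no subdivision of the complete graph `K_{a⁺}`. The graph is the comparability graph of the tree of
all injections of ordinals `< a⁺` into a set of size `a`, ordered by extension.
-/

universe u

namespace Pool.Agent.Results.MP_e76a7e_co.InjectionTree

open Cardinal Set

/-- The chromatic number, as a cardinal: the least cardinal `κ` such that the vertex set is a union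
of `κ` independent sets. -/
noncomputable def chromaticCardinal {V : Type u} (G : SimpleGraph V) : Cardinal.{u} :=
  sInf {κ : Cardinal.{u} | ∃ (ι : Type u) (S : ι → Set V),
    #ι = κ ∧ (∀ i, G.IsIndepSet (S i)) ∧ ⋃ i, S i = Set.univ}

/-- `P` is a family of paths of `G`, one for each pair of distinct elements of `B`, that forms a
subdivision of the complete graph with branch vertex set `B`: every `P x y` is a (finite) path from
`x` to `y`, `P y x` is `P x y` reversed, no inner vertex of a path lies in `B`, and the paths of two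
different pairs meet at most in common endpoints. -/
structure IsSubdivision {V : Type u} (G : SimpleGraph V) (B : Set V)
    (P : ∀ x y : B, G.Walk (x : V) (y : V)) : Prop where
  isPath : ∀ x y : B, x ≠ y → (P x y).IsPath
  symm : ∀ x y : B, x ≠ y → P y x = (P x y).reverse
  inner : ∀ x y : B, x ≠ y → ∀ v ∈ (P x y).support, v ∈ B → v = x ∨ v = y
  disj : ∀ x y x' y' : B, x ≠ y → x' ≠ y' → s(x, y) ≠ s(x', y') →
    ∀ v : V, v ∈ (P x y).support → v ∈ (P x' y').support →
      (v = x ∨ v = y) ∧ (v = x' ∨ v = y')

/-- `G` contains a subdivision of the complete graph on `κ` vertices. -/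
def ContainsSubdivision {V : Type u} (G : SimpleGraph V) (κ : Cardinal.{u}) : Prop :=
  ∃ B : Set V, #B = κ ∧ ∃ P : ∀ x y : B, G.Walk (x : V) (y : V), IsSubdivision G B P

section Tree

variable (W A : Type u) [LinearOrder W] (a₀ : A)

/-- Nodes of the tree: a level `w`, and a function that is injective below `w` and constantly `a₀`
from `w` on. This is a code for an injection of the initial segment below `w` into `A`. -/
def Node : Type u :=
  {p : W × (W → A) // Set.InjOn p.2 (Iio p.1) ∧ ∀ x, ¬ x < p.1 → p.2 x = a₀}

variable {W A a₀}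

/-- Strict extension. -/
def NLt (p q : Node W A a₀) : Prop := p.1.1 < q.1.1 ∧ ∀ x < p.1.1, p.1.2 x = q.1.2 x

theorem NLt.trans {p q r : Node W A a₀} (h : NLt p q) (h' : NLt q r) : NLt p r :=
  ⟨h.1.trans h'.1, fun x hx => (h.2 x hx).trans (h'.2 x (hx.trans h.1))⟩

theorem NLt.irrefl (p : Node W A a₀) : ¬ NLt p p := fun h => lt_irrefl _ h.1

theorem NLt.tree {p q r : Node W A a₀} (h : NLt p r) (h' : NLt q r) :
    p = q ∨ NLt p q ∨ NLt q p := by
  rcases lt_trichotomy p.1.1 q.1.1 with hlt | heq | hgt
  · refine Or.inr (Or.inl ⟨hlt, fun x hx => ?_⟩)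
    rw [h.2 x hx, h'.2 x (hx.trans hlt)]
  · left
    apply Subtype.ext
    refine Prod.ext heq ?_
    funext x
    by_cases hx : x < p.1.1
    · rw [h.2 x hx, h'.2 x (heq ▸ hx)]
    · rw [p.2.2 x hx, q.2.2 x (heq ▸ hx)]
  · refine Or.inr (Or.inr ⟨hgt, fun x hx => ?_⟩)
    rw [h'.2 x hx, h.2 x (hx.trans hgt)]

variable (W A a₀) in
/-- The comparability graph of the tree. -/
def treeGraph : SimpleGraph (Node W A a₀) where
  Adj p q := NLt p q ∨ NLt q p
  symm := ⟨fun _ _ h => h.symm⟩
  loopless := ⟨fun p h => by rcases h with h | h <;> exact NLt.irrefl p h⟩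

/-- The number of strict predecessors of a node is at most the size of the initial segment. -/
theorem mk_pred_le (q : Node W A a₀) : #{p : Node W A a₀ // NLt p q} ≤ #(Iio q.1.1) := by
  refine Cardinal.mk_le_of_injective (f := fun p => ⟨p.1.1.1, p.2.1⟩) ?_
  intro p p' h
  have h1 : p.1.1.1 = p'.1.1.1 := congrArg Subtype.val h
  apply Subtype.ext
  rcases NLt.tree p.2 p'.2 with h2 | h2 | h2
  · exact h2
  · exact absurd h1 h2.1.ne
  · exact absurd h1 h2.1.ne'

/-- A walk between distinct incomparable nodes passes through a common strict predecessor. -/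
theorem walk_separation {s t : Node W A a₀} (hne : s ≠ t) (hst : ¬ NLt s t) (hts : ¬ NLt t s)
    (w : (treeGraph W A a₀).Walk s t) : ∃ v ∈ w.support, NLt v s ∧ NLt v t := by
  by_contra hcon
  push Not at hcon
  -- `Φ v`: `v` lies above some `r ≤ s` that is not a common strict predecessor
  let Φ : Node W A a₀ → Prop := fun v =>
    ∃ r, (r = s ∨ NLt r s) ∧ ¬ (NLt r s ∧ NLt r t) ∧ (r = v ∨ NLt r v)
  have key : ∀ (x y : Node W A a₀) (p : (treeGraph W A a₀).Walk x y),
      (∀ v ∈ p.support, NLt v s → ¬ NLt v t) → Φ x → Φ y := by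
    intro x y p
    induction p with
    | nil => intro _ h; exact h
    | @cons x z y hadj p ih =>
      intro hav hx
      refine ih (fun v hv => hav v (by simp [hv])) ?_
      have hz : NLt z s → ¬ NLt z t :=
        hav z (by rw [SimpleGraph.Walk.support_cons]; exact List.mem_cons_of_mem _ p.start_mem_support)
      obtain ⟨r, hrs, hrC, hrx⟩ := hx
      rcases hadj with hxz | hzx
      · refine ⟨r, hrs, hrC, Or.inr ?_⟩
        rcases hrx with rfl | hrx
        · exact hxz
        · exact hrx.trans hxz
      · -- `z < x`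
        have hcmp : r = z ∨ NLt r z ∨ NLt z r := by
          rcases hrx with rfl | hrx
          · exact Or.inr (Or.inr hzx)
          · exact NLt.tree hrx hzx
        rcases hcmp with h | h | h
        · exact ⟨r, hrs, hrC, Or.inl h⟩
        · exact ⟨r, hrs, hrC, Or.inr h⟩
        · have hzs : NLt z s := by
            rcases hrs with rfl | hrs
            · exact h
            · exact h.trans hrs
          exact ⟨z, Or.inr hzs, fun hC => hz hzs hC.2, Or.inl rfl⟩
  have hs : Φ s := ⟨s, Or.inl rfl, fun h => NLt.irrefl s h.1, Or.inl rfl⟩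
  obtain ⟨r, hrs, hrC, hrt⟩ := key s t w hcon hs
  rcases hrs with rfl | hrs
  · rcases hrt with h | h
    · exact hne h
    · exact hst h
  · rcases hrt with rfl | hrt
    · exact hts hrs
    · exact hrC ⟨hrs, hrt⟩

/-- Truncation of a function at level `x`. -/
noncomputable def trunc (f : W → A) (x : W) : W → A :=
  open Classical in fun y => if y < x then f y else a₀

theorem trunc_of_lt {f : W → A} {x y : W} (h : y < x) : trunc (a₀ := a₀) f x y = f y := by
  simp [trunc, h]

theorem trunc_of_not_lt {f : W → A} {x y : W} (h : ¬ y < x) :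
    trunc (a₀ := a₀) f x y = a₀ := by
  simp [trunc, h]

/-- The node coded by a function that is injective below `x`. -/
noncomputable def mkNode (f : W → A) (x : W) (h : Set.InjOn f (Iio x)) : Node W A a₀ :=
  ⟨(x, trunc (a₀ := a₀) f x), by
    refine ⟨?_, fun y hy => trunc_of_not_lt hy⟩
    intro y hy z hz hyz
    have hy' : y < x := hy
    have hz' : z < x := hz
    have hyz' : trunc (a₀ := a₀) f x y = trunc (a₀ := a₀) f x z := hyz
    rw [trunc_of_lt hy', trunc_of_lt hz'] at hyz'
    exact h hy hz hyz'⟩

theorem mkNode_lt {f g : W → A} {x y : W} (hx : Set.InjOn f (Iio x)) (hy : Set.InjOn g (Iio y))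
    (hxy : x < y) (hfg : ∀ z < x, f z = g z) :
    NLt (mkNode (a₀ := a₀) f x hx) (mkNode (a₀ := a₀) g y hy) := by
  refine ⟨hxy, fun z hz => ?_⟩
  have hz' : z < x := hz
  show trunc (a₀ := a₀) f x z = trunc (a₀ := a₀) g y z
  rw [trunc_of_lt hz', trunc_of_lt (hz'.trans hxy), hfg z hz']

/-- Hartogs-type argument: a map from the tree to `A` that separates comparable nodes yields an
injection of `W` into `A`. -/
theorem exists_injection [WellFoundedLT W] (c : Node W A a₀ → A)
    (hc : ∀ p q, NLt p q → c p ≠ c q) : ∃ f : W → A, Function.Injective f := by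
  classical
  let F : ∀ x : W, (∀ y : W, y < x → A) → A := fun x rec =>
    if h : Set.InjOn (fun y => if hy : y < x then rec y hy else a₀) (Iio x) then
      c (mkNode (fun y => if hy : y < x then rec y hy else a₀) x h) else a₀
  let f : W → A := WellFounded.fix (wellFounded_lt (α := W)) F
  have hf : ∀ x, f x = F x (fun y _ => f y) := fun x => WellFounded.fix_eq _ _ _
  have htr : ∀ x, (fun y => if hy : y < x then f y else a₀) = trunc (a₀ := a₀) f x := by
    intro x
    funext y
    by_cases hy : y < x
    · rw [trunc_of_lt hy]; simp [hy]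
    · rw [trunc_of_not_lt hy]; simp [hy]
  have hinj_tr : ∀ x, Set.InjOn f (Iio x) →
      Set.InjOn (fun y => if hy : y < x then f y else a₀) (Iio x) := by
    intro x h y hy z hz hyz
    have hy' : y < x := hy
    have hz' : z < x := hz
    simp only [hy', hz', dif_pos] at hyz
    exact h hy hz hyz
  have hval : ∀ x (h : Set.InjOn f (Iio x)), f x = c (mkNode (a₀ := a₀) f x h) := by
    intro x h
    rw [hf x]
    show (if h : Set.InjOn (fun y => if hy : y < x then f y else a₀) (Iio x) then
      c (mkNode (fun y => if hy : y < x then f y else a₀) x h) else a₀) = _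
    rw [dif_pos (hinj_tr x h)]
    congr 1
    apply Subtype.ext
    refine Prod.ext rfl ?_
    funext y
    show trunc (a₀ := a₀) (fun y => if hy : y < x then f y else a₀) x y =
      trunc (a₀ := a₀) f x y
    by_cases hy : y < x
    · rw [trunc_of_lt hy, trunc_of_lt hy]; simp [hy]
    · rw [trunc_of_not_lt hy, trunc_of_not_lt hy]
  have hne : ∀ y z, y < z → Set.InjOn f (Iio y) → Set.InjOn f (Iio z) → f y ≠ f z := by
    intro y z hyz hy hz
    rw [hval y hy, hval z hz]
    exact hc _ _ (mkNode_lt hy hz hyz (fun _ _ => rfl))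
  have hinj : ∀ x, Set.InjOn f (Iio x) := by
    intro x
    induction x using WellFoundedLT.induction with
    | ind x ih =>
      intro y hy z hz hyz
      have hy' : y < x := hy
      have hz' : z < x := hz
      rcases lt_trichotomy y z with h | h | h
      · exact absurd hyz (hne y z h (ih y hy') (ih z hz'))
      · exact h
      · exact absurd hyz.symm (hne z y h (ih z hz') (ih y hy'))
  refine ⟨f, fun y z hyz => ?_⟩
  rcases lt_trichotomy y z with h | h | h
  · exact absurd hyz (hne y z h (hinj y) (hinj z))
  · exact h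
  · exact absurd hyz.symm (hne z y h (hinj z) (hinj y))

/-- Lower bound for the chromatic number. -/
theorem not_cover [WellFoundedLT W] (hWA : #A < #W) (ι : Type u) (S : ι → Set (Node W A a₀))
    (hι : #ι ≤ #A) (hS : ∀ i, (treeGraph W A a₀).IsIndepSet (S i)) :
    ¬ ⋃ i, S i = Set.univ := by
  intro hcov
  obtain ⟨e⟩ : Nonempty (ι ↪ A) := Cardinal.le_def _ _ |>.1 hι
  have hmem : ∀ p : Node W A a₀, ∃ i, p ∈ S i := by
    intro p
    have : p ∈ ⋃ i, S i := by rw [hcov]; exact Set.mem_univ p
    exact Set.mem_iUnion.1 this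
  choose i hi using hmem
  obtain ⟨f, hf⟩ := exists_injection (fun p => e (i p)) (by
    intro p q hpq heq
    have h1 : i p = i q := e.injective heq
    have h2 : q ∈ S (i p) := by rw [h1]; exact hi q
    have hne : p ≠ q := by
      rintro rfl
      exact NLt.irrefl p hpq
    exact hS (i p) (hi p) h2 hne (Or.inl hpq))
  exact absurd (Cardinal.mk_le_of_injective hf) (not_le.2 hWA)

/-- There is no chain of nodes of size `#W`. -/
theorem not_chain (hWA : #A < #W) (hA : ℵ₀ ≤ #A) (hseg : ∀ w : W, #(Iio w) ≤ #A)
    (B : Set (Node W A a₀)) (hB : #A < #B) (hchain : ∀ s ∈ B, ∀ t ∈ B, s ≠ t → NLt s t ∨ NLt t s) :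
    False := by
  classical
  -- the levels of the elements of `B` are cofinal
  have hcof : ∀ x : W, ∃ s ∈ B, x < s.1.1 := by
    intro x
    by_contra hcon
    push Not at hcon
    have hinj : Function.Injective (fun s : B => (⟨s.1.1.1, hcon s.1 s.2⟩ : Iic x)) := by
      intro s t hst
      have h1 : s.1.1.1 = t.1.1.1 := congrArg Subtype.val hst
      by_contra hne
      have hne' : s.1 ≠ t.1 := fun h => hne (Subtype.ext h)
      rcases hchain s.1 s.2 t.1 t.2 hne' with h | h
      · exact absurd h1 h.1.ne
      · exact absurd h1 h.1.ne'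
    have h1 := Cardinal.mk_le_of_injective hinj
    have h2 : #(Iic x) ≤ #A := by
      have h3 : (Iic x : Set W) = insert x (Iio x) := by
        rw [Iio_insert]
      rw [h3]
      calc #(insert x (Iio x) : Set W) ≤ #(Iio x) + 1 := Cardinal.mk_insert_le
        _ ≤ #A + 1 := add_le_add_left (hseg x) 1
        _ = #A := Cardinal.add_one_eq hA
    exact absurd (h1.trans h2) (not_le.2 hB)
  choose s hsB hs using hcof
  -- the union of the chain
  let g : W → A := fun x => (s x).1.2 x
  have hg : ∀ x y, x < (s y).1.1 → g x = (s y).1.2 x := by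
    intro x y hxy
    by_cases h : s x = s y
    · show (s x).1.2 x = _
      rw [h]
    · rcases hchain _ (hsB x) _ (hsB y) h with h1 | h1
      · exact h1.2 x (hs x)
      · exact (h1.2 x hxy).symm
  have hinj : Function.Injective g := by
    intro x y hxy
    -- compare inside a common node
    rcases le_total x y with hle | hle
    · have hx : x < (s y).1.1 := lt_of_le_of_lt hle (hs y)
      rw [hg x y hx] at hxy
      exact (s y).2.1 (show x ∈ Iio (s y).1.1 from hx) (hs y) hxy
    · have hy : y < (s x).1.1 := lt_of_le_of_lt hle (hs x)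
      rw [hg y x hy] at hxy
      exact (s x).2.1 (hs x) (show y ∈ Iio (s x).1.1 from hy) hxy
  exact absurd (Cardinal.mk_le_of_injective hinj) (not_le.2 hWA)

/-- The tree graph contains no subdivision of a complete graph on more than `#A` vertices. -/
theorem not_subdivision (hWA : #A < #W) (hA : ℵ₀ ≤ #A) (hseg : ∀ w : W, #(Iio w) ≤ #A)
    (κ : Cardinal.{u}) (hκ : #A < κ) : ¬ ContainsSubdivision (treeGraph W A a₀) κ := by
  classical
  rintro ⟨B, hB, P, hP⟩
  refine not_chain hWA hA hseg B (by rw [hB]; exact hκ) ?_
  intro s hs t ht hst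
  by_contra hcon
  push Not at hcon
  -- for every other branch vertex `b` choose a common predecessor on the path `s - b - t`
  let s' : B := ⟨s, hs⟩
  let t' : B := ⟨t, ht⟩
  have hst' : s' ≠ t' := fun h => hst (congrArg Subtype.val h)
  have hex : ∀ b : {b : B // b ≠ s' ∧ b ≠ t'},
      ∃ v, (v ∈ (P s' b.1).support ∨ v ∈ (P b.1 t').support) ∧ NLt v s ∧ NLt v t := by
    intro b
    obtain ⟨v, hv, hvC⟩ := walk_separation hst hcon.1 hcon.2 ((P s' b.1).append (P b.1 t'))
    rw [SimpleGraph.Walk.mem_support_append_iff] at hv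
    exact ⟨v, hv, hvC⟩
  choose v hv hvs hvt using hex
  have hinj : Function.Injective (fun b => (⟨v b, hvs b⟩ : {p : Node W A a₀ // NLt p s})) := by
    intro b b' hbb
    have hvv : v b = v b' := congrArg Subtype.val hbb
    by_contra hne
    have hne' : b.1 ≠ b'.1 := fun h => hne (Subtype.ext h)
    have hv1 := hv b
    have hv2 := hv b'
    rw [← hvv] at hv2
    have hvs' : v b ≠ s := fun h => NLt.irrefl s (h ▸ hvs b)
    have hvt' : v b ≠ t := fun h => NLt.irrefl t (h ▸ hvt b)
    have hvbb : ∀ x : B, v b = x → x = b.1 → x = b'.1 → False := by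
      intro x _ h1 h2
      exact hne' (h1 ▸ h2)
    -- the vertex `v b` lies on two different paths, so it is a common endpoint
    have hfin : (v b = b.1) ∧ (v b = b'.1) := by
      rcases hv1 with h1 | h1 <;> rcases hv2 with h2 | h2
      · have hd := hP.disj s' b.1 s' b'.1 (Ne.symm b.2.1) (Ne.symm b'.2.1) (by
          intro h
          rcases Sym2.eq_iff.1 h with h | h
          · exact hne' h.2
          · exact b.2.1 h.2) (v b) h1 h2
        exact ⟨hd.1.resolve_left hvs', hd.2.resolve_left hvs'⟩
      · have hd := hP.disj s' b.1 b'.1 t' (Ne.symm b.2.1) b'.2.2 (by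
          intro h
          rcases Sym2.eq_iff.1 h with h | h
          · exact b'.2.1 h.1.symm
          · exact hst' h.1) (v b) h1 h2
        exact ⟨hd.1.resolve_left hvs', hd.2.resolve_right hvt'⟩
      · have hd := hP.disj b.1 t' s' b'.1 b.2.2 (Ne.symm b'.2.1) (by
          intro h
          rcases Sym2.eq_iff.1 h with h | h
          · exact b.2.1 h.1
          · exact hst' h.2.symm) (v b) h1 h2
        exact ⟨hd.1.resolve_right hvt', hd.2.resolve_left hvs'⟩
      · have hd := hP.disj b.1 t' b'.1 t' b.2.2 b'.2.2 (by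
          intro h
          rcases Sym2.eq_iff.1 h with h | h
          · exact hne' h.1
          · exact b.2.2 h.1) (v b) h1 h2
        exact ⟨hd.1.resolve_right hvt', hd.2.resolve_right hvt'⟩
    exact hne' (Subtype.ext (hfin.1.symm.trans hfin.2))
  have h1 := Cardinal.mk_le_of_injective hinj
  have h2 : #{b : B // b ≠ s' ∧ b ≠ t'} ≤ #A := (h1.trans (mk_pred_le s)).trans (hseg s.1.1)
  -- but removing two elements from `B` does not change its size
  have h3 : #B ≤ #{b : B // b ≠ s' ∧ b ≠ t'} + 2 := by
    have h4 : (Set.univ : Set B) ⊆ {b : B | b ≠ s' ∧ b ≠ t'} ∪ {s', t'} := by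
      intro b _
      by_cases hb : b ≠ s' ∧ b ≠ t'
      · exact Or.inl hb
      · right
        rw [not_and_or, not_not, not_not] at hb
        rcases hb with h | h
        · exact Or.inl h
        · exact Or.inr h
    calc #B = #(Set.univ : Set B) := Cardinal.mk_univ.symm
      _ ≤ #({b : B | b ≠ s' ∧ b ≠ t'} ∪ {s', t'} : Set B) := Cardinal.mk_le_mk_of_subset h4
      _ ≤ #{b : B | b ≠ s' ∧ b ≠ t'} + #({s', t'} : Set B) := Cardinal.mk_union_le _ _
      _ ≤ #{b : B // b ≠ s' ∧ b ≠ t'} + 2 := by
          refine add_le_add le_rfl ?_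
          refine (Cardinal.mk_insert_le).trans ?_
          rw [Cardinal.mk_singleton]
          norm_num
  have h5 : #B ≤ #A := by
    refine h3.trans ?_
    calc #{b : B // b ≠ s' ∧ b ≠ t'} + 2 ≤ #A + #A :=
          add_le_add h2 ((Cardinal.natCast_lt_aleph0 (n := 2)).le.trans hA)
      _ = #A := Cardinal.add_eq_self hA
  rw [hB] at h5
  exact absurd h5 (not_le.2 hκ)

end Tree

/-- **Main theorem.** For every infinite cardinal `a` there is a graph of chromatic number exactly
`a⁺` that contains no subdivision of the complete graph `K_{a⁺}`. -/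
theorem result (a : Cardinal.{u}) (ha : ℵ₀ ≤ a) :
    ∃ (V : Type u) (G : SimpleGraph V), chromaticCardinal G = Order.succ a ∧
      ¬ ContainsSubdivision G (Order.succ a) := by
  classical
  let W : Type u := (Order.succ a).ord.ToType
  let A : Type u := a.out
  have hAa : #A = a := Cardinal.mk_out a
  have hW : #W = Order.succ a := Cardinal.mk_ord_toType _
  have hWA : #A < #W := by rw [hAa, hW]; exact Order.lt_succ a
  have hAinf : ℵ₀ ≤ #A := by rw [hAa]; exact ha
  have hseg : ∀ w : W, #(Iio w) ≤ #A := by
    intro w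
    rw [hAa]
    have h := Cardinal.mk_Iio_lt w (by rw [Ordinal.type_toType, Cardinal.mk_ord_toType])
    rw [hW] at h
    exact Order.lt_succ_iff.1 h
  have hne : Nonempty A := by
    rw [← Cardinal.mk_ne_zero_iff, hAa]
    exact (lt_of_lt_of_le Cardinal.aleph0_pos ha).ne'
  obtain ⟨a₀⟩ := hne
  refine ⟨Node W A a₀, treeGraph W A a₀, ?_, ?_⟩
  · refine le_antisymm ?_ ?_
    · -- colour a node by its level
      refine csInf_le' ⟨W, fun w => {p | p.1.1 = w}, hW, ?_, ?_⟩
      · intro w p hp q hq _ hadj
        have h1 : p.1.1 = q.1.1 := (show p.1.1 = w from hp).trans (show q.1.1 = w from hq).symm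
        rcases hadj with h | h
        · exact absurd h1 h.1.ne
        · exact absurd h1 h.1.ne'
      · ext p
        simp
    · refine le_csInf ⟨Order.succ a, W, fun w => {p | p.1.1 = w}, hW, ?_, ?_⟩ ?_
      · intro w p hp q hq _ hadj
        have h1 : p.1.1 = q.1.1 := (show p.1.1 = w from hp).trans (show q.1.1 = w from hq).symm
        rcases hadj with h | h
        · exact absurd h1 h.1.ne
        · exact absurd h1 h.1.ne'
      · ext p
        simp
      · rintro κ ⟨ι, S, hι, hS, hcov⟩
        by_contra hlt
        rw [not_le, Order.lt_succ_iff, ← hAa, ← hι] at hlt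
        exact not_cover hWA ι S hlt hS hcov
  · exact not_subdivision hWA hAinf hseg _ (by rw [hAa]; exact Order.lt_succ a)

end Pool.Agent.Results.MP_e76a7e_co.InjectionTree
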